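import Mathlib

namespace Pool.Agent.H.MP_3f28ca_an

/-! Letters: `a = false`, `b = true`. Words are lists of letters. -/

/-- A random substitution: each letter gets a law on words, with finitely many realisations
(the support, so all their probabilities are positive), all of them nonempty. -/
def IsRandomSubst (ϑ : Bool → PMF (List Bool)) : Prop :=
  ∀ α, (ϑ α).support.Finite ∧ [] ∉ (ϑ α).support

/-- Law of `ϑ(w)`: each letter is replaced independently. -/
noncomputable def step (ϑ : Bool → PMF (List Bool)) : List Bool → PMF (List Bool)
  | [] => PMF.pure []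
  | x :: w => (ϑ x).bind fun s => (step ϑ w).map fun t => s ++ t

/-- Law of `ϑ^n(α)`. -/
noncomputable def iter (ϑ : Bool → PMF (List Bool)) (α : Bool) : ℕ → PMF (List Bool)
  | 0 => PMF.pure [α]
  | n + 1 => (iter ϑ α n).bind (step ϑ)

/-- Substitution matrix `M β α = ∑ p · |s|_β`. -/
noncomputable def subMat (ϑ : Bool → PMF (List Bool)) : Matrix Bool Bool ℝ :=
  fun β α => ∑' s : List Bool, (ϑ α s).toReal * (s.count β : ℝ)

/-- Some positive power of the substitution matrix has all entries positive. -/
def Primitive (ϑ : Bool → PMF (List Bool)) : Prop :=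
  ∃ k : ℕ, 0 < k ∧ ∀ β α, 0 < (subMat ϑ ^ k) β α

/-- Number of occurrences of `v` in `w` (positions of `w` at which `v` starts). -/
def occ (v w : List Bool) : ℕ := w.tails.countP fun t => v.isPrefixOf t

/-- Transition probabilities of the Parry measure. -/
noncomputable def trans : Bool → Bool → ℝ
  | false, false => Real.goldenRatio⁻¹
  | false, true => (Real.goldenRatio ^ 2)⁻¹
  | true, false => 1
  | true, true => 0

/-- Initial distribution of the Parry measure. -/
noncomputable def init : Bool → ℝ
  | false => Real.goldenRatio ^ 2 / (Real.goldenRatio ^ 2 + 1)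
  | true => 1 / (Real.goldenRatio ^ 2 + 1)

/-- Product of the transition probabilities along `x` followed by a word. -/
noncomputable def pathP : Bool → List Bool → ℝ
  | _, [] => 1
  | x, y :: r => trans x y * pathP y r

/-- Parry measure of the cylinder `[v]`. -/
noncomputable def parry : List Bool → ℝ
  | [] => 1
  | x :: r => init x * pathP x r

end Pool.Agent.H.MP_3f28ca_an
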