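import Pool.Agent.H.MP_3f28ca_an.Var

namespace Pool.Agent.H.MP_3f28ca_an

open scoped ENNReal

noncomputable def Ex {A : Type} (P : PMF A) (g : A → ℝ≥0∞) : ℝ≥0∞ := ∑' a, P a * g a

lemma Ex_pure {A : Type} (a : A) (g : A → ℝ≥0∞) : Ex (PMF.pure a) g = g a := by
  rw [Ex, tsum_eq_single a]
  · simp
  · intro b hb; simp [PMF.pure_apply_of_ne _ _ hb]

lemma Ex_bind {A B : Type} (P : PMF A) (f : A → PMF B) (g : B → ℝ≥0∞) :
    Ex (P.bind f) g = Ex P fun a => Ex (f a) g := by
  simp only [Ex, PMF.bind_apply, ← ENNReal.tsum_mul_left, ← ENNReal.tsum_mul_right, mul_assoc]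
  exact ENNReal.tsum_comm

lemma Ex_map {A B : Type} (P : PMF A) (f : A → B) (g : B → ℝ≥0∞) :
    Ex (P.map f) g = Ex P fun a => g (f a) := by
  rw [← PMF.bind_pure_comp, Ex_bind]; simp [Ex_pure]

lemma Ex_mono {A : Type} (P : PMF A) {g h : A → ℝ≥0∞} (c : ℝ≥0∞) (H : ∀ a, g a ≤ c * h a) :
    Ex P g ≤ c * Ex P h := by
  rw [Ex, Ex, ← ENNReal.tsum_mul_left]
  refine ENNReal.tsum_le_tsum fun a => ?_
  rw [mul_left_comm]; gcongr; exact H a

noncomputable def coin : PMF Bool :=
  PMF.ofFintype (fun b => ENNReal.ofReal (if b then qq else pp)) (by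
    simp only [Fintype.sum_bool, if_true, Bool.false_eq_true, if_false]
    rw [← ENNReal.ofReal_add qq_pos.le pp_pos.le, add_comm, pq, ENNReal.ofReal_one])

noncomputable def th : Bool → PMF (List Bool) := fun _ => coin.map blk

lemma Ex_th (x : Bool) (g : List Bool → ℝ≥0∞) :
    Ex (th x) g = ENNReal.ofReal pp * g [false] + ENNReal.ofReal qq * g [false, true] := by
  rw [th, Ex_map, Ex, tsum_fintype, Fintype.sum_bool, add_comm]
  simp [coin, blk]

lemma E_nonneg (l : ℕ) (h : List Bool → ℝ) (H : ∀ c, c.length = l → 0 ≤ h c) : 0 ≤ E l h := by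
  rw [← E_const l 0]; exact E_mono _ _ _ H

lemma Ex_step (w : List Bool) : ∀ (g : List Bool → ℝ≥0∞) (h : List Bool → ℝ),
    (∀ c, c.length = w.length → 0 ≤ h c ∧ g (word c) ≤ ENNReal.ofReal (h c)) →
    Ex (step th w) g ≤ ENNReal.ofReal (E w.length h) := by
  induction w with
  | nil => intro g h H; rw [step, Ex_pure]; exact (H [] rfl).2
  | cons x w ih =>
    intro g h H
    rw [step, Ex_bind, Ex_th, Ex_map, Ex_map, List.length_cons, E,
      ENNReal.ofReal_add (mul_nonneg pp_pos.le (E_nonneg _ _ fun c hc => (H _ (by simp [hc])).1))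
        (mul_nonneg qq_pos.le (E_nonneg _ _ fun c hc => (H _ (by simp [hc])).1)),
      ENNReal.ofReal_mul pp_pos.le, ENNReal.ofReal_mul qq_pos.le]
    gcongr
    · exact ih _ _ fun c hc => H (false :: c) (by simp [hc])
    · exact ih _ _ fun c hc => H (true :: c) (by simp [hc])

noncomputable def inv (w : List Bool) : ℝ≥0∞ := (w.length : ℝ≥0∞)⁻¹

lemma le_inv {w : List Bool} {x : ℝ≥0∞} {c : ℝ} (hc : 0 < c)
    (h : 0 < w.length → x ≤ ENNReal.ofReal (c / w.length)) : x ≤ ENNReal.ofReal c * inv w := by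
  rcases Nat.eq_zero_or_pos w.length with h0 | h0
  · rw [inv, h0]; simp [ENNReal.mul_top (ENNReal.ofReal_pos.2 hc).ne']
  · refine (h h0).trans (le_of_eq ?_)
    rw [ENNReal.ofReal_div_of_pos (by exact_mod_cast h0), ENNReal.ofReal_natCast]; rfl

lemma qq_lt : qq < 1 := by linarith [pq, pp_pos]

lemma step_inv (w : List Bool) : Ex (step th w) inv ≤ ENNReal.ofReal (1 - qq / 2) * inv w := by
  refine le_inv (by linarith [qq_lt]) fun h0 => ?_
  have hl : (0:ℝ) < w.length := by exact_mod_cast h0
  refine (Ex_step w _ (fun c => (-1 / (2 * w.length ^ 2)) * ((word c).length : ℝ) + 0 * 0 +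
    3 / (2 * w.length)) fun c hc => ?_).trans (le_of_eq ?_)
  · have a1 : (w.length : ℝ) ≤ (word c).length := by exact_mod_cast hc ▸ (word_len c).1
    have a2 : ((word c).length : ℝ) ≤ 2 * w.length := by exact_mod_cast hc ▸ (word_len c).2
    have hL : (0:ℝ) < (word c).length := by linarith
    have key : ((word c).length : ℝ)⁻¹ ≤ (-1 / (2 * w.length ^ 2)) * ((word c).length : ℝ) + 0 * 0 +
        3 / (2 * w.length) := by
      rw [← sub_nonneg]
      have : (-1 / (2 * w.length ^ 2)) * ((word c).length : ℝ) + 0 * 0 + 3 / (2 * w.length) -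
          ((word c).length : ℝ)⁻¹ = (((word c).length - w.length) *
            (2 * w.length - (word c).length)) / (2 * w.length ^ 2 * (word c).length) := by
        field_simp; ring
      rw [this]
      exact div_nonneg (mul_nonneg (by linarith) (by linarith)) (by positivity)
    refine ⟨le_trans (by positivity) key, le_trans (le_of_eq ?_) (ENNReal.ofReal_le_ofReal key)⟩
    rw [ENNReal.ofReal_inv_of_pos hL, ENNReal.ofReal_natCast]; rfl
  · rw [E_lin w.length _ (fun _ => 0), E_len]
    congr 1; field_simp; ring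

lemma iter_inv (α : Bool) (n : ℕ) : Ex (iter th α n) inv ≤ ENNReal.ofReal (1 - qq / 2) ^ n := by
  induction n with
  | zero => simp [iter, Ex_pure, inv]
  | succ n ih =>
    rw [iter, Ex_bind, pow_succ']
    exact (Ex_mono _ _ step_inv).trans (by gcongr)

def bad (v : List Bool) (ε : ℝ) : Set (List Bool) :=
  {w | ε ≤ |(occ v w : ℝ) / w.length - parry v|}

lemma step_bad {v : List Bool} (hv : v ≠ []) {ε : ℝ} (hε : 0 < ε) (w : List Bool) :
    Ex (step th w) ((bad v ε).indicator 1) ≤
      ENNReal.ofReal (((2 * v.length) ^ 2 + (v.length + 2) ^ 2) / ε ^ 2) * inv w := by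
  refine le_inv (by positivity) fun h0 => ?_
  have hl : (1:ℝ) ≤ w.length := by exact_mod_cast h0
  refine (Ex_step w _ (fun c => (1 / (ε * w.length) ^ 2) * dev v c ^ 2 + 0 * 0 + 0)
    fun c hc => ⟨by positivity, ?_⟩).trans (ENNReal.ofReal_le_ofReal ?_)
  · by_cases hb : word c ∈ bad v ε
    · rw [Set.indicator_of_mem hb, Pi.one_apply, ← ENNReal.ofReal_one]
      apply ENNReal.ofReal_le_ofReal
      have a1 : (w.length : ℝ) ≤ (word c).length := by exact_mod_cast hc ▸ (word_len c).1
      have hL : (0:ℝ) < (word c).length := by linarith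
      have e : (occ v (word c) : ℝ) / (word c).length - parry v = dev v c / (word c).length := by
        rw [dev]; field_simp
      have hb' : ε ≤ |(occ v (word c) : ℝ) / (word c).length - parry v| := hb
      rw [e, abs_div, abs_of_pos hL, le_div_iff₀ hL] at hb'
      have a2 : ε * w.length ≤ |dev v c| := le_trans (by gcongr) hb'
      have a3 := pow_le_pow_left₀ (by positivity) a2 2
      rw [sq_abs] at a3
      rw [mul_zero, add_zero, add_zero, one_div, ← div_eq_inv_mul, one_le_div (by positivity)]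
      exact a3
    · rw [Set.indicator_of_notMem hb]; simp
  · rw [E_lin w.length _ (fun _ => 0)]
    have := dev_sq hv w.length
    rw [zero_mul, add_zero, add_zero, one_div, ← div_eq_inv_mul, div_div,
      div_le_div_iff₀ (by positivity) (by positivity)]
    have h2 : (2 * (v.length : ℝ)) ^ 2 ≤ w.length * (2 * v.length) ^ 2 :=
      le_mul_of_one_le_left (by positivity) hl
    calc _ ≤ (w.length * ((2 * v.length) ^ 2 + (v.length + 2) ^ 2)) * (ε ^ 2 * w.length) := by
          gcongr; linarith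
      _ = _ := by ring

lemma sum_bad {v : List Bool} (hv : v ≠ []) {ε : ℝ} (hε : 0 < ε) (α : Bool) :
    ∑' n, Ex (iter th α (n + 1)) ((bad v ε).indicator 1) ≠ ⊤ := by
  have key : ∀ n, Ex (iter th α (n + 1)) ((bad v ε).indicator 1) ≤
      ENNReal.ofReal (((2 * v.length) ^ 2 + (v.length + 2) ^ 2) / ε ^ 2) *
        ENNReal.ofReal (1 - qq / 2) ^ n := fun n => by
    rw [iter, Ex_bind]
    exact (Ex_mono _ _ (step_bad hv hε)).trans (mul_le_mul_right (iter_inv α n) _)
  refine ne_top_of_le_ne_top ?_ (ENNReal.tsum_le_tsum key)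
  rw [ENNReal.tsum_mul_left, ENNReal.tsum_geometric]
  refine ENNReal.mul_ne_top ENNReal.ofReal_ne_top (ENNReal.inv_ne_top.2 ?_)
  exact (tsub_pos_of_lt (ENNReal.ofReal_lt_one.2 (by linarith [qq_pos]))).ne'

lemma th_supp (x : Bool) : (th x).support ⊆ {[false], [false, true]} := by
  rw [th, PMF.support_map]
  rintro _ ⟨b, -, rfl⟩
  cases b <;> simp [blk]

lemma th_mat (β α : Bool) : 0 < subMat th β α := by
  rw [subMat, tsum_eq_sum (s := {[false], [false, true]}) (by
    intro s hs
    have : th α s = 0 := by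
      by_contra h
      exact hs (by simpa using th_supp α h)
    simp [this])]
  rw [Finset.sum_pair (by simp)]
  have h1 : 0 < (th α [false, true]).toReal := by
    refine ENNReal.toReal_pos ?_ (PMF.apply_ne_top _ _)
    change [false, true] ∈ (th α).support
    rw [th, PMF.support_map]
    refine ⟨true, ?_, rfl⟩
    simp [coin, qq_pos]
  have h2 : (0:ℝ) < (([false, true] : List Bool).count β : ℝ) := by cases β <;> simp
  positivity

end Pool.Agent.H.MP_3f28ca_an
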