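import Pool.Agent.H.MP_3f28ca_an.Defs

namespace Pool.Agent.H.MP_3f28ca_an

noncomputable def pp : ℝ := Real.goldenRatio⁻¹
noncomputable def qq : ℝ := (Real.goldenRatio ^ 2)⁻¹

lemma pp_pos : 0 < pp := inv_pos.2 Real.goldenRatio_pos
lemma qq_pos : 0 < qq := inv_pos.2 (pow_pos Real.goldenRatio_pos 2)
lemma pq : pp + qq = 1 := by
  have h := Real.goldenRatio_pos.ne'
  have h2 := Real.goldenRatio_sq
  rw [pp, qq]
  generalize Real.goldenRatio = t at h h2
  field_simp
  rw [h2]

def blk : Bool → List Bool
  | false => [false]
  | true => [false, true]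

def word : List Bool → List Bool
  | [] => []
  | b :: c => blk b ++ word c

noncomputable def E : ℕ → (List Bool → ℝ) → ℝ
  | 0, f => f []
  | l + 1, f => pp * E l (fun c => f (false :: c)) + qq * E l (fun c => f (true :: c))

lemma E_mono (l : ℕ) : ∀ f g : List Bool → ℝ, (∀ c, c.length = l → f c ≤ g c) → E l f ≤ E l g := by
  induction l with
  | zero => exact fun f g h => h [] rfl
  | succ l ih =>
    intro f g h
    exact add_le_add (mul_le_mul_of_nonneg_left (ih _ _ fun c hc => h _ (by simp [hc])) pp_pos.le)
      (mul_le_mul_of_nonneg_left (ih _ _ fun c hc => h _ (by simp [hc])) qq_pos.le)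

lemma E_lin (l : ℕ) : ∀ (f g : List Bool → ℝ) (a b k : ℝ),
    E l (fun c => a * f c + b * g c + k) = a * E l f + b * E l g + k := by
  induction l with
  | zero => intros; rfl
  | succ l ih =>
    intro f g a b k
    simp only [E, ih]
    linear_combination k * pq

lemma E_const (l : ℕ) (k : ℝ) : E l (fun _ => k) = k := by
  simpa using E_lin l (fun _ => 0) (fun _ => 0) 0 0 k

lemma E_add_const (l : ℕ) (f : List Bool → ℝ) (k : ℝ) : E l (fun c => f c + k) = E l f + k := by
  simpa using E_lin l f (fun _ => 0) 1 0 k

lemma E_var (C : ℝ) (l : ℕ) : ∀ f : List Bool → ℝ,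
    (∀ c1 c2, |f (c1 ++ false :: c2) - f (c1 ++ true :: c2)| ≤ C) →
    E l (fun c => f c ^ 2) ≤ E l f ^ 2 + l * C ^ 2 := by
  induction l with
  | zero => intro f _; simp [E]
  | succ l ih =>
    intro f h
    have h0 := ih (fun c => f (false :: c)) fun c1 c2 => h (false :: c1) c2
    have h1 := ih (fun c => f (true :: c)) fun c1 c2 => h (true :: c1) c2
    have d1 : E l (fun c => f (false :: c)) ≤ E l (fun c => f (true :: c)) + C := by
      rw [← E_add_const]
      exact E_mono _ _ _ fun c _ => by have := (abs_le.1 (h [] c)).2; simp at this; linarith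
    have d2 : E l (fun c => f (true :: c)) ≤ E l (fun c => f (false :: c)) + C := by
      rw [← E_add_const]
      exact E_mono _ _ _ fun c _ => by have := (abs_le.1 (h [] c)).1; simp at this; linarith
    simp only [E]
    set m0 := E l (fun c => f (false :: c))
    set m1 := E l (fun c => f (true :: c))
    have d3 : (m0 - m1) ^ 2 ≤ C ^ 2 := sq_le_sq' (by linarith) (by linarith)
    have a0 := mul_le_mul_of_nonneg_left h0 pp_pos.le
    have a1 := mul_le_mul_of_nonneg_left h1 qq_pos.le
    have e : pp = 1 - qq := by linarith [pq]
    have hq := qq_pos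
    have hp := pp_pos
    have d4 : pp * qq * (m0 - m1) ^ 2 ≤ C ^ 2 := by
      have : pp * qq ≤ 1 := by nlinarith
      nlinarith [sq_nonneg (m0 - m1)]
    push_cast
    rw [e] at *
    nlinarith

/-- indicator of being an initial segment -/
def ind (v w : List Bool) : ℝ := if v <+: w then 1 else 0

lemma occ_cons (v : List Bool) (x : Bool) (w : List Bool) :
    (occ v (x :: w) : ℝ) = occ v w + ind v (x :: w) := by
  simp only [occ, List.tails_cons, List.countP_cons, ind, List.isPrefixOf_iff_prefix]
  split_ifs <;> simp

lemma ind_bd (v w : List Bool) : 0 ≤ ind v w ∧ ind v w ≤ 1 := by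
  rw [ind]; split_ifs <;> simp

lemma occ_le {v : List Bool} (hv : v ≠ []) (w : List Bool) : (occ v w : ℝ) ≤ w.length := by
  induction w with
  | nil => simp [occ, hv]
  | cons x w ih => rw [occ_cons]; push_cast [List.length_cons]; linarith [(ind_bd v (x :: w)).2]

lemma occ_append (v w w' u : List Bool) :
    |(occ v (u ++ w) : ℝ) - occ v (u ++ w') - (occ v w - occ v w')| ≤ min u.length v.length := by
  induction u with
  | nil => simp
  | cons x u ih =>
    rw [List.cons_append, List.cons_append, occ_cons, occ_cons, List.length_cons]
    rw [abs_le] at ih ⊢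
    rcases le_or_gt v.length u.length with h | h
    · have e : ∀ t : List Bool, ind v (x :: (u ++ t)) = ind v (x :: u) := by
        intro t
        have : v <+: x :: (u ++ t) ↔ v <+: x :: u :=
          ⟨fun h' => List.prefix_of_prefix_length_le h' (List.prefix_append (x :: u) t)
            (by simp; omega), fun h' => h'.trans (List.prefix_append (x :: u) t)⟩
        simp only [ind, this]
      rw [e, e, min_eq_right (by omega : v.length ≤ u.length + 1)]
      rw [min_eq_right h] at ih
      constructor <;> linarith
    · rw [min_eq_left (by omega : u.length + 1 ≤ v.length)]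
      rw [min_eq_left h.le] at ih
      have := ind_bd v (x :: (u ++ w))
      have := ind_bd v (x :: (u ++ w'))
      push_cast
      constructor <;> linarith

lemma word_append (c1 c2 : List Bool) : word (c1 ++ c2) = word c1 ++ word c2 := by
  induction c1 with
  | nil => rfl
  | cons b c ih => simp [word, ih]

lemma word_len (c : List Bool) : c.length ≤ (word c).length ∧ (word c).length ≤ 2 * c.length := by
  induction c with
  | nil => simp [word]
  | cons b c ih => cases b <;> simp [word, blk] <;> omega

lemma ind_cons (x y : Bool) (v w : List Bool) :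
    ind (x :: v) (y :: w) = if x = y then ind v w else 0 := by
  simp only [ind, List.cons_prefix_cons]
  by_cases h : x = y <;> simp [h]

lemma G_eq (n : ℕ) : ∀ (r : List Bool) (l : ℕ), r.length ≤ n → r.length ≤ l →
    E l (fun c => ind r (word c)) = pathP true r := by
  induction n with
  | zero =>
    intro r l h _
    rw [List.length_eq_zero_iff.1 (Nat.le_zero.1 h)]
    simp [ind, E_const, pathP]
  | succ n ih =>
    rintro (_ | ⟨y, r⟩) l h hl
    · simp [ind, E_const, pathP]
    obtain ⟨l, rfl⟩ : ∃ k, l = k + 1 := ⟨l - 1, by simp at hl; omega⟩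
    simp only [List.length_cons] at h hl
    cases y
    · simp only [E, word, blk, List.cons_append, List.nil_append, ind_cons, if_true]
      rw [ih r l (by omega) (by omega)]
      rcases r with _ | ⟨z, r⟩
      · simp [ind, E_const, pathP, trans, pq]
      · simp only [List.length_cons] at h hl
        cases z
        · simp [ind_cons, E_const, pathP, trans, pp]
        · simp only [ind_cons, if_true]
          rw [ih r l (by omega) (by omega)]
          simp [pathP, trans, qq]
    · simp [E, word, blk, ind_cons, E_const, pathP, trans]

lemma pathP_bd (r : List Bool) : ∀ x, 0 ≤ pathP x r ∧ pathP x r ≤ 1 := by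
  have ht : ∀ x y, 0 ≤ trans x y ∧ trans x y ≤ 1 := by
    have := pp_pos; have := qq_pos; have := pq
    rintro (_ | _) (_ | _)
    · change 0 ≤ pp ∧ pp ≤ 1; constructor <;> linarith
    · change 0 ≤ qq ∧ qq ≤ 1; constructor <;> linarith
    · simp [trans]
    · simp [trans]
  induction r with
  | nil => simp [pathP]
  | cons y r ih =>
    intro x
    exact ⟨mul_nonneg (ht _ _).1 (ih _).1, mul_le_one₀ (ht _ _).2 (ih _).1 (ih _).2⟩

lemma init_f : init false * (1 + qq) = 1 := by
  have h := Real.goldenRatio_pos
  rw [init, qq]; field_simp

lemma init_t : init true * (1 + qq) = qq := by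
  have h := Real.goldenRatio_pos
  rw [init, qq]; field_simp

lemma parry_bd (v : List Bool) : 0 ≤ parry v ∧ parry v ≤ 1 := by
  rcases v with _ | ⟨x, r⟩
  · simp [parry]
  have hi : 0 ≤ init x ∧ init x ≤ 1 := by
    have := qq_pos; have := init_f; have := init_t
    cases x <;> constructor <;> nlinarith
  exact ⟨mul_nonneg hi.1 (pathP_bd r x).1, mul_le_one₀ hi.2 (pathP_bd r x).1 (pathP_bd r x).2⟩

noncomputable def dev (v c : List Bool) : ℝ := occ v (word c) - parry v * (word c).length

lemma dev_step {v : List Bool} (hv : v ≠ []) {l : ℕ} (hl : v.length ≤ l) :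
    E (l + 1) (dev v) = E l (dev v) := by
  have h1 := G_eq _ v (l + 1) le_rfl (by omega)
  simp only [E, word, blk, List.cons_append, List.nil_append] at h1
  have e0 : (fun c => dev v (false :: c)) =
      fun c => 1 * dev v c + 1 * ind v (false :: word c) + (-parry v) := by
    funext c; simp only [dev, word, blk, List.cons_append, List.nil_append, occ_cons,
      List.length_cons]; push_cast; ring
  have e1 : (fun c => dev v (true :: c)) = fun c => 1 * dev v c +
      1 * (1 * ind v (false :: true :: word c) + 1 * ind v (true :: word c) + 0) +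
      (-2 * parry v) := by
    funext c; simp only [dev, word, blk, List.cons_append, List.nil_append, occ_cons,
      List.length_cons]; push_cast; ring
  rw [E, e0, e1, E_lin, E_lin, E_lin]
  obtain ⟨x, r, rfl⟩ := List.exists_cons_of_ne_nil hv
  simp only [List.length_cons] at hl
  cases x
  · have h2 : E l (fun c => ind (false :: r) (true :: word c)) = 0 := by simp [ind_cons, E_const]
    rw [h2]
    simp only [pathP, trans, parry] at h1 ⊢
    linear_combination h1 + (E l (dev (false :: r)) - init false * pathP false r) * pq -
      pathP false r * init_f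
  · have h2 : E l (fun c => ind (true :: r) (true :: word c)) = pathP true r := by
      simp only [ind_cons, if_true]; exact G_eq _ r l le_rfl (by omega)
    rw [h2]
    simp only [pathP, trans, parry] at h1 ⊢
    linear_combination h1 + (E l (dev (true :: r)) - init true * pathP true r) * pq -
      pathP true r * init_t

lemma dev_mean {v : List Bool} (hv : v ≠ []) (l : ℕ) : |E l (dev v)| ≤ 2 * v.length := by
  have base : ∀ l : ℕ, |E l (dev v)| ≤ 2 * l := by
    intro l
    have hb : ∀ c : List Bool, c.length = l → |dev v c| ≤ 2 * l := by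
      intro c hc
      have a1 := occ_le hv (word c)
      have a2 : ((word c).length : ℝ) ≤ 2 * l := by exact_mod_cast hc ▸ (word_len c).2
      have a3 := parry_bd v
      have a4 : (0:ℝ) ≤ (word c).length := Nat.cast_nonneg _
      have a5 : (0:ℝ) ≤ occ v (word c) := Nat.cast_nonneg _
      rw [dev, abs_le]; constructor <;> nlinarith
    rw [abs_le]
    constructor
    · rw [← E_const l (-(2 * l))]; exact E_mono _ _ _ fun c hc => (abs_le.1 (hb c hc)).1
    · rw [← E_const l (2 * l)]; exact E_mono _ _ _ fun c hc => (abs_le.1 (hb c hc)).2
  rcases le_total l v.length with h | h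
  · exact (base l).trans (by gcongr)
  · induction l, h using Nat.le_induction with
    | base => exact base _
    | succ l hl ih => rwa [dev_step hv hl]

lemma dev_sq {v : List Bool} (hv : v ≠ []) (l : ℕ) :
    E l (fun c => dev v c ^ 2) ≤ (2 * v.length) ^ 2 + l * (v.length + 2) ^ 2 := by
  refine (E_var (v.length + 2) l (dev v) fun c1 c2 => ?_).trans ?_
  · have h := occ_append v (word c2) (true :: word c2) (word c1 ++ [false])
    have h2 : ((min (word c1 ++ [false]).length v.length : ℕ) : ℝ) ≤ v.length := by
      exact_mod_cast min_le_right _ _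
    have h3 := h.trans h2
    rw [occ_cons] at h3
    have := ind_bd v (true :: word c2)
    have := parry_bd v
    simp only [dev, word_append, word, blk, List.cons_append, List.nil_append, List.append_assoc,
      List.length_append, List.length_cons] at h3 ⊢
    push_cast
    rw [abs_le] at h3 ⊢
    constructor <;> linarith
  · have := sq_le_sq' (abs_le.1 (dev_mean hv l)).1 (abs_le.1 (dev_mean hv l)).2
    linarith

lemma E_len (l : ℕ) : E l (fun c => ((word c).length : ℝ)) = l * (1 + qq) := by
  induction l with
  | zero => simp [E, word]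
  | succ l ih =>
    simp only [E, word, blk, List.cons_append, List.nil_append, List.length_cons]
    push_cast
    rw [E_add_const, E_add_const, E_add_const, ih]
    linear_combination (l * (1 + qq) + 1) * pq

end Pool.Agent.H.MP_3f28ca_an
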